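import Pool.Agent.helper73.SHL.Spec

/-!
# MP_a2a22c_al, row shl:HOM
-/

set_option autoImplicit false

namespace Pool.Agent.SHL

open Matrix Module Pool.Agent.PR

section HOM

variable {D : Type} [DivisionRing D] [Algebra ℚ D] {V : Type} [AddCommGroup V] [Module D V]
  [Module ℚ V] [IsScalarTower ℚ D V]

/-- the endomorphisms killing `L` with image in `L` -/
noncomputable def HOM_map (L : Submodule D V) : ((V ⧸ L) →ₗ[D] L) →ₗ[ℚ] Module.End D V where
  toFun f := L.subtype ∘ₗ f ∘ₗ L.mkQ
  map_add' f g := by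
    ext v
    simp
  map_smul' c f := by
    ext v
    simp

theorem HOM_mem (L : Submodule D V) (x : Module.End D V) (h1 : ∀ w ∈ L, x w = 0)
    (h2 : ∀ v, x v ∈ L) : x ∈ LinearMap.range (HOM_map (V := V) L) := by
  refine ⟨L.liftQ (x.codRestrict L h2) ?_, ?_⟩
  · intro w hw
    rw [LinearMap.mem_ker]
    apply Subtype.ext
    simpa using h1 w hw
  · ext v
    simp [HOM_map]

end HOM

theorem HOM : HOM_stmt := by
  intro D _ _ _ V _ _ _ _ _ L S hS
  have hle : Submodule.span ℚ S ≤ LinearMap.range (HOM_map (V := V) L) := by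
    rw [Submodule.span_le]
    intro x hx
    exact HOM_mem L x (hS x hx).1 (hS x hx).2
  have hL : Module.Finite ℚ L := Module.Finite.trans D L
  let b := Module.finBasis D (V ⧸ L)
  let e : (Fin (finrank D (V ⧸ L)) → L) ≃ₗ[ℚ] ((V ⧸ L) →ₗ[D] L) := b.constr ℚ
  have hfin : Module.Finite ℚ ((V ⧸ L) →ₗ[D] L) := Module.Finite.equiv e
  have h1 : finrank ℚ ((V ⧸ L) →ₗ[D] L) = finrank ℚ D * (finrank D L * finrank D (V ⧸ L)) := by
    rw [← e.finrank_eq, Module.finrank_pi_fintype, Finset.sum_const, Finset.card_univ,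
      Fintype.card_fin, smul_eq_mul, ← Module.finrank_mul_finrank ℚ D L]
    ring
  rw [← h1]
  exact (Submodule.finrank_mono hle).trans (LinearMap.finrank_range_le _)

end Pool.Agent.SHL
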